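import Pool.Agent.Y258.GJ.Tpw2

set_option autoImplicit false

/-! Project GJ (helper883): the pointwise estimate of the ternary sum (helper258). -/

namespace Pool.Agent.Y258.GJ

open Finset
open Pool.Agent.Y883.GJ
open Pool.Agent.H807R2.Dav (ee)
open Pool.Agent.Y378.GJ (phi_low)

/-- the good part at one scale -/
theorem scale_fin (h1 : OrthStm) (c : ℕ)
    (hc : ∀ (q N : ℕ) [NeZero q] (F : ℕ → ℂ) (ℓ T β : ℝ), 1 ≤ N → 1 + Real.log N ≤ ℓ →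
      (∀ n ∈ Icc 1 N, ‖F n‖ ≤ ℓ * (n.divisors.card : ℝ)) →
      (∑ n ∈ (Icc 1 N).filter (fun n => ¬ n.Coprime q), ‖F n‖ ≤ T) →
      ∑ l ∈ univ.filter (fun l : ZMod q => ¬ IsUnit l), ‖cl q N F β l‖ ^ 2 ≤
        ((N : ℝ) / q + 1) * Real.sqrt (T * (N * ℓ ^ c)))
    (ρ L : ℝ) (q P : ℕ) [NeZero q] (k m : ℝ) (G : ℕ → ℂ) (β : ℝ) (C1 C3 V W : ℕ)
    (hq : (q : ℝ) = k * m) (hk : 0 < k) (hm : 0 < m) (hL : 200 ≤ L) (h2c : (2 : ℝ) ^ c ≤ L)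
    (hP : 1 ≤ P) (hlog : Real.log P ≤ L) (hlog2 : L / 3 ≤ Real.log P)
    (h3V : (3 : ℝ) ^ (V + 1) ≤ L) (hq2 : (q : ℝ) ≤ (P : ℝ) ^ (1 / 2 - ρ / 2)) (hqP : q ≤ P)
    (hS : Str (ρ / 2) (V + 1) (C1 + 1) C3 P G) (hβ : |β| ≤ Real.log P ^ (C1 + 1) / P)
    (hV : 1 + c + 2 * (W + 2) ≤ V) :
    (∀ n ∈ Icc 1 P, ‖G n‖ ≤ 2 * L * (n.divisors.card : ℝ)) ∧
    (∑ n ∈ (Icc 1 P).filter (fun n => ¬ n.Coprime q), ‖G n‖ ≤ P / L ^ V) ∧
    ∃ B : Finset (DirichletCharacter ℂ q), (B.card : ℝ) ≤ L ^ C3 ∧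
      (∀ S : Finset (DirichletCharacter ℂ q), Disjoint S B →
        ∑ χ ∈ S, ‖cs q P G β χ‖ ^ 2 ≤ (P : ℝ) ^ 2 / L ^ V) ∧
      k * ∑ l, ‖cl q P G β l - clB q P G β B l‖ ^ 2 ≤ (P : ℝ) ^ 2 / m / L ^ (W + 1) := by
  have hL0 : 0 < L := by linarith
  have hL1 : 1 ≤ L := by linarith
  have hq0 : 1 ≤ q := Nat.pos_of_ne_zero (NeZero.ne q)
  have hlogP : 0 ≤ Real.log P := Real.log_natCast_nonneg P
  have hbd : ∀ n ∈ Icc 1 P, ‖G n‖ ≤ 2 * L * (n.divisors.card : ℝ) := by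
    intro n hn
    refine (hS.bd n hn).trans ?_
    apply mul_le_mul_of_nonneg_right _ (Nat.cast_nonneg _)
    linarith
  have hnc : ∑ n ∈ (Icc 1 P).filter (fun n => ¬ n.Coprime q), ‖G n‖ ≤ P / L ^ V :=
    (hS.nc q hq0 hqP).trans (logconv L _ _ V hL1 hlog2 h3V (Nat.cast_nonneg _))
  refine ⟨hbd, hnc, ?_⟩
  obtain ⟨B, hB1, hB2⟩ := hS.maj q hq2
  have hB3 : ∀ S : Finset (DirichletCharacter ℂ q), Disjoint S B →
        ∑ χ ∈ S, ‖cs q P G β χ‖ ^ 2 ≤ (P : ℝ) ^ 2 / L ^ V := fun S hd =>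
    (hB2 β hβ S hd).trans (logconv L _ _ V hL1 hlog2 h3V (by positivity))
  refine ⟨B, hB1.trans (pow_le_pow_left₀ hlogP hlog _), hB3, ?_⟩
  refine kg P q k m _ L W hq hk hm hL0 ?_
  refine scale h1 c hc L q P G β B V W hL h2c hP hqP hlog hbd hnc hV ?_
  refine (hB3 _ ?_).trans ?_
  · rw [disjoint_left]
    intro χ k1 k2
    exact (mem_filter.1 k1).2 k2
  · have k1 : (P : ℝ) ^ 2 / L ^ V ≤ (P : ℝ) ^ 2 / L ^ (W + 3) :=
      div_le_div_of_nonneg_left (by positivity) (by positivity) (pow_le_pow_right₀ hL1 (by omega))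
    have k3 : 8 * (P : ℝ) ^ 2 / L ^ (W + 3) = 8 * (P ^ 2 / L ^ (W + 3)) := by ring
    have k4 : 0 ≤ (P : ℝ) ^ 2 / L ^ (W + 3) := by positivity
    rw [k3]
    linarith

theorem tPW (h1 : OrthStm) (h2 : L2Stm) (h3 : SmallCStm) (h4 : NonUStm) (h5 : TNormStm)
    (h6 : TJacStm) : TPWStm := by
  intro A T ρ hρ C1
  obtain ⟨c, hc⟩ := h4
  obtain ⟨W, hW⟩ : ∃ W : ℕ, W = 2 * A + 1 := ⟨_, rfl⟩
  obtain ⟨V, hV⟩ : ∃ V : ℕ, V = 1 + c + 2 * (W + 2) := ⟨_, rfl⟩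
  refine ⟨V + 1, fun C3 => ?_⟩
  obtain ⟨A2, hA2⟩ : ∃ A2 : ℕ, A2 = 6 * C3 + C1 + T + 2 * A + 17 := ⟨_, rfl⟩
  obtain ⟨U, hU⟩ : ∃ U : ℕ, U = C3 + 2 * A2 + (W + 3) := ⟨_, rfl⟩
  obtain ⟨N1, hN1⟩ := Pool.Agent.TH935.LD.ev_L' (200 + 2 ^ c + 3 ^ (V + 1) + 3 ^ (U + 1))
  obtain ⟨N2, hN2⟩ := asy C1 (ρ / 4) ((1 / 4 : ℝ) ^ (ρ / 4)) (by linarith)
    (Real.rpow_pos_of_pos (by norm_num) _)
  obtain ⟨N3, hN3⟩ := asy C1 1 1 one_pos one_pos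
  refine ⟨U + 1, N1 + N2 + N3 + 3, ?_⟩
  intro N hN c1 c2 c3 d P1 P2 P3 hp G1 G2 G3 s1 s2 s3 hsum hnc k _ _ _ hk1 hkL d' hd' η e1 e2 e3
  obtain ⟨L, hL⟩ : ∃ L : ℝ, L = Real.log N := ⟨_, rfl⟩
  have hLc := hN1 N (by omega)
  rw [← hL] at hLc
  have p2 : (0 : ℝ) < 2 ^ c := by positivity
  have p3 : (0 : ℝ) < 3 ^ (V + 1) := by positivity
  have p4 : (0 : ℝ) < 3 ^ (U + 1) := by positivity
  have hL200 : 200 ≤ L := by linarith
  have h2c : (2 : ℝ) ^ c ≤ L := by linarith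
  have h3V : (3 : ℝ) ^ (V + 1) ≤ L := by linarith
  have h3U : (3 : ℝ) ^ (U + 1) ≤ L := by linarith
  have hL0 : 0 < L := by linarith
  have hL1 : 1 ≤ L := by linarith
  have hN0 : 0 < N := by omega
  have hNr : (0 : ℝ) < N := by exact_mod_cast hN0
  have has : L ^ C1 ≤ ((N : ℝ) / 4) ^ (ρ / 4) := by
    have k1 := hN2 N (by omega)
    rw [← hL, ← Real.mul_rpow (by norm_num) hNr.le] at k1
    have k2 : (1 / 4 : ℝ) * N = N / 4 := by ring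
    rwa [k2] at k1
  have has2 : L ^ C1 ≤ N := by
    have k1 := hN3 N (by omega)
    rw [← hL, Real.rpow_one, one_mul] at k1
    exact k1
  rw [← hL] at hkL
  have hkr : (0 : ℝ) < k := by exact_mod_cast hk1
  have hkN : (k : ℝ) ≤ N := hkL.trans has2
  -- the coefficients
  have ha1 : 1 ≤ c1.natAbs := Nat.pos_of_ne_zero (by simpa using hp.n1)
  have ha2 : 1 ≤ c2.natAbs := Nat.pos_of_ne_zero (by simpa using hp.n2)
  have ha3 : 1 ≤ c3.natAbs := Nat.pos_of_ne_zero (by simpa using hp.n3)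
  have hP1 : 1 ≤ P1 := by
    rcases Nat.eq_zero_or_pos P1 with h | h
    · exfalso
      have := hp.v1
      rw [h] at this
      simp at this
    · exact h
  have hP2 : 1 ≤ P2 := by
    rcases Nat.eq_zero_or_pos P2 with h | h
    · exfalso
      have := hp.v2
      rw [h] at this
      simp at this
    · exact h
  have hP3 : 1 ≤ P3 := by
    rcases Nat.eq_zero_or_pos P3 with h | h
    · exfalso
      have := hp.v3
      rw [h] at this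
      simp at this
    · exact h
  have hPN1 : P1 ≤ N := le_trans (Nat.le_mul_of_pos_left _ ha1) hp.u1
  have hPN2 : P2 ≤ N := le_trans (Nat.le_mul_of_pos_left _ ha2) hp.u2
  have hPN3 : P3 ≤ N := le_trans (Nat.le_mul_of_pos_left _ ha3) hp.u3
  have hz1 : (N : ℝ) ≤ 4 * (P1 : ℝ) ^ 2 := by
    refine sizes N c1.natAbs P1 P2 ρ hρ hN0 ha1 hp.v1 hP2 hPN2 (le_trans ?_ hp.q2)
    exact_mod_cast Nat.le_mul_of_pos_right _ ha3
  have hz2 : (N : ℝ) ≤ 4 * (P2 : ℝ) ^ 2 := by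
    refine sizes N c2.natAbs P2 P1 ρ hρ hN0 ha2 hp.v2 hP1 hPN1 (le_trans ?_ hp.q1)
    exact_mod_cast Nat.le_mul_of_pos_right _ ha3
  have hz3 : (N : ℝ) ≤ 4 * (P3 : ℝ) ^ 2 := by
    refine sizes N c3.natAbs P3 P1 ρ hρ hN0 ha3 hp.v3 hP1 hPN1 (le_trans ?_ hp.q1)
    exact_mod_cast Nat.le_mul_of_pos_left _ ha2
  obtain ⟨u1, u2, u3, u4⟩ := sdat N P1 k (c2.natAbs * c3.natAbs) C1 ρ L hL hL200 hN0 hP1 hPN1 hz1
    hρ has hkL hp.q1
  obtain ⟨v1, v2, v3, v4⟩ := sdat N P2 k (c1.natAbs * c3.natAbs) C1 ρ L hL hL200 hN0 hP2 hPN2 hz2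
    hρ has hkL hp.q2
  obtain ⟨w1, w2, w3, w4⟩ := sdat N P3 k (c1.natAbs * c2.natAbs) C1 ρ L hL hL200 hN0 hP3 hPN3 hz3
    hρ has hkL hp.q3
  rw [← mul_assoc] at u3 u4 v3 v4 w3 w4
  have a1 : (0 : ℝ) < (c1.natAbs : ℝ) := by exact_mod_cast ha1
  have a2 : (0 : ℝ) < (c2.natAbs : ℝ) := by exact_mod_cast ha2
  have a3 : (0 : ℝ) < (c3.natAbs : ℝ) := by exact_mod_cast ha3
  have eq1 : ((k * c2.natAbs * c3.natAbs : ℕ) : ℝ) = k * ((c2.natAbs : ℝ) * c3.natAbs) := by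
    push_cast
    ring
  have eq2 : ((k * c1.natAbs * c3.natAbs : ℕ) : ℝ) = k * ((c1.natAbs : ℝ) * c3.natAbs) := by
    push_cast
    ring
  have eq3 : ((k * c1.natAbs * c2.natAbs : ℕ) : ℝ) = k * ((c1.natAbs : ℝ) * c2.natAbs) := by
    push_cast
    ring
  -- the three scales
  obtain ⟨bd1, nc1, B1, hB1, hS1, hg1⟩ := scale_fin h1 c hc ρ L (k * c2.natAbs * c3.natAbs) P1 k
    ((c2.natAbs : ℝ) * c3.natAbs) G1 (c1 * η) C1 C3 V W eq1 hkr (by positivity) hL200 h2c hP1 u1 u2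
    h3V u3 u4 s1 e1 (le_of_eq hV.symm)
  obtain ⟨bd2, nc2, B2, hB2, hS2, hg2⟩ := scale_fin h1 c hc ρ L (k * c1.natAbs * c3.natAbs) P2 k
    ((c1.natAbs : ℝ) * c3.natAbs) G2 (c2 * η) C1 C3 V W eq2 hkr (by positivity) hL200 h2c hP2 v1 v2
    h3V v3 v4 s2 e2 (le_of_eq hV.symm)
  obtain ⟨bd3, nc3, B3, hB3, hS3, hg3⟩ := scale_fin h1 c hc ρ L (k * c1.natAbs * c2.natAbs) P3 k
    ((c1.natAbs : ℝ) * c2.natAbs) G3 (c3 * η) C1 C3 V W eq3 hkr (by positivity) hL200 h2c hP3 w1 w2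
    h3V w3 w4 s3 e3 (le_of_eq hV.symm)
  classical
  -- the bad characters of large conductor
  obtain ⟨B1', hB1'⟩ : ∃ B1' : Finset (DirichletCharacter ℂ (k * c2.natAbs * c3.natAbs)),
      B1' = B1.filter (fun χ => L ^ A2 < (χ.conductor : ℝ)) := ⟨_, rfl⟩
  have hB1c : (B1'.card : ℝ) ≤ L ^ C3 := by
    refine le_trans ?_ hB1
    rw [hB1']
    exact_mod_cast card_filter_le _ _
  have hX1 := small_cond h3 L (k * c2.natAbs * c3.natAbs) P1 G1 (c1 * η) B1 C3 A2 U W V hL200 hB1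
    hS1 (by omega)
    ((hnc _ (Nat.pos_of_ne_zero (NeZero.ne _)) u4).trans
      (logconv L _ _ U hL1 u2 h3U (Nat.cast_nonneg _)))
    (fun α => (hsum α).trans (logconv L _ _ U hL1 u2 h3U (Nat.cast_nonneg _)))
    (by omega) B1' (fun χ => by rw [hB1', mem_filter])
  have hg1' := kg P1 (k * c2.natAbs * c3.natAbs : ℕ) k ((c2.natAbs : ℝ) * c3.natAbs) _ L W eq1 hkr
    (by positivity) hL0 (scale h1 c hc L (k * c2.natAbs * c3.natAbs) P1 G1 (c1 * η) B1' V W hL200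
      h2c hP1 u4 u1 bd1 nc1 (le_of_eq hV.symm) hX1)
  have htr := trivb h2 L (k * c2.natAbs * c3.natAbs) P1 G1 (c1 * η) hL200 hP1 u4 u1 bd1
  -- abbreviations
  obtain ⟨S1, hS1d⟩ : ∃ S1 : ℝ, S1 = ∑ x, ‖cl (k * c2.natAbs * c3.natAbs) P1 G1 (c1 * η) x‖ ^ 2 :=
    ⟨_, rfl⟩
  obtain ⟨S2, hS2d⟩ : ∃ S2 : ℝ, S2 = ∑ x, ‖cl (k * c1.natAbs * c3.natAbs) P2 G2 (c2 * η) x‖ ^ 2 :=
    ⟨_, rfl⟩
  obtain ⟨S3, hS3d⟩ : ∃ S3 : ℝ, S3 = ∑ x, ‖cl (k * c1.natAbs * c2.natAbs) P3 G3 (c3 * η) x‖ ^ 2 :=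
    ⟨_, rfl⟩
  have hS10 : 0 ≤ S1 := by rw [hS1d]; exact sum_nonneg fun _ _ => sq_nonneg _
  have hS20 : 0 ≤ S2 := by rw [hS2d]; exact sum_nonneg fun _ _ => sq_nonneg _
  have hS30 : 0 ≤ S3 := by rw [hS3d]; exact sum_nonneg fun _ _ => sq_nonneg _
  have hb1 := (h1 (k * c2.natAbs * c3.natAbs) P1 G1 (c1 * η) B1').2.1
  have hb2 := (h1 (k * c1.natAbs * c3.natAbs) P2 G2 (c2 * η) B2).2.1
  rw [← hS1d] at hb1 htr
  rw [← hS2d] at hb2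
  rw [← hS1d, ← hS2d, ← hS3d]
  -- the decomposition
  have hsplit : T3 c1 c2 c3 k d' (cl _ P1 G1 (c1 * η)) (cl _ P2 G2 (c2 * η)) (cl _ P3 G3 (c3 * η)) =
      T3 c1 c2 c3 k d' (fun x => cl _ P1 G1 (c1 * η) x - clB _ P1 G1 (c1 * η) B1' x)
        (cl _ P2 G2 (c2 * η)) (cl _ P3 G3 (c3 * η)) +
      T3 c1 c2 c3 k d' (clB _ P1 G1 (c1 * η) B1')
        (fun x => cl _ P2 G2 (c2 * η) x - clB _ P2 G2 (c2 * η) B2 x) (cl _ P3 G3 (c3 * η)) +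
      T3 c1 c2 c3 k d' (clB _ P1 G1 (c1 * η) B1') (clB _ P2 G2 (c2 * η) B2)
        (fun x => cl _ P3 G3 (c3 * η) x - clB _ P3 G3 (c3 * η) B3 x) +
      T3 c1 c2 c3 k d' (clB _ P1 G1 (c1 * η) B1') (clB _ P2 G2 (c2 * η) B2)
        (clB _ P3 G3 (c3 * η) B3) :=
    Tt_split _ _ _ _ _ _ _
  -- the four pieces
  have t1 : ‖T3 c1 c2 c3 k d' (fun x => cl _ P1 G1 (c1 * η) x - clB _ P1 G1 (c1 * η) B1' x)
        (cl _ P2 G2 (c2 * η)) (cl _ P3 G3 (c3 * η))‖ ≤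
      1 / L ^ (A + 1) * (P1 / Real.sqrt ((c2.natAbs : ℝ) * c3.natAbs) *
        (Real.sqrt S2 * Real.sqrt S3)) := by
    refine root _ _ _ _ _ _ A (norm_nonneg _) (Nat.cast_nonneg _) (by positivity) hL0 hS20 hS30 ?_
    refine (h5 c1 c2 c3 k hp.g12 hp.g13 hp.g23 d' _ _ _).trans ?_
    rw [← hS2d, ← hS3d]
    have k1 : (2 * A + 2) = W + 1 := by omega
    rw [k1]
    calc (k : ℝ) * (∑ x, ‖cl (k * c2.natAbs * c3.natAbs) P1 G1 (c1 * η) x -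
          clB (k * c2.natAbs * c3.natAbs) P1 G1 (c1 * η) B1' x‖ ^ 2) * S2 * S3
        ≤ (P1 : ℝ) ^ 2 / ((c2.natAbs : ℝ) * c3.natAbs) / L ^ (W + 1) * S2 * S3 := by
          apply mul_le_mul_of_nonneg_right _ hS30
          exact mul_le_mul_of_nonneg_right hg1' hS20
      _ = _ := by ring
  have t2 : ‖T3 c1 c2 c3 k d' (clB _ P1 G1 (c1 * η) B1')
        (fun x => cl _ P2 G2 (c2 * η) x - clB _ P2 G2 (c2 * η) B2 x) (cl _ P3 G3 (c3 * η))‖ ≤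
      1 / L ^ (A + 1) * (P2 / Real.sqrt ((c1.natAbs : ℝ) * c3.natAbs) *
        (Real.sqrt S1 * Real.sqrt S3)) := by
    refine root _ _ _ _ _ _ A (norm_nonneg _) (Nat.cast_nonneg _) (by positivity) hL0 hS10 hS30 ?_
    refine (h5 c1 c2 c3 k hp.g12 hp.g13 hp.g23 d' _ _ _).trans ?_
    rw [← hS3d]
    have k1 : (2 * A + 2) = W + 1 := by omega
    rw [k1]
    obtain ⟨z1, hz1⟩ : ∃ z1 : ℝ, z1 = ∑ x, ‖clB (k * c2.natAbs * c3.natAbs) P1 G1 (c1 * η) B1' x‖ ^ 2 :=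
      ⟨_, rfl⟩
    obtain ⟨z2, hz2⟩ : ∃ z2 : ℝ, z2 = ∑ x, ‖cl (k * c1.natAbs * c3.natAbs) P2 G2 (c2 * η) x -
          clB (k * c1.natAbs * c3.natAbs) P2 G2 (c2 * η) B2 x‖ ^ 2 := ⟨_, rfl⟩
    have z20 : 0 ≤ z2 := by rw [hz2]; exact sum_nonneg fun _ _ => sq_nonneg _
    rw [← hz1] at hb1 ⊢
    rw [← hz2] at hg2 ⊢
    calc (k : ℝ) * z1 * z2 * S3 ≤ (k : ℝ) * S1 * z2 * S3 := by gcongr
      _ = (k * z2) * (S1 * S3) := by ring
      _ ≤ _ := mul_le_mul_of_nonneg_right hg2 (by positivity)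
  have t3 : ‖T3 c1 c2 c3 k d' (clB _ P1 G1 (c1 * η) B1') (clB _ P2 G2 (c2 * η) B2)
        (fun x => cl _ P3 G3 (c3 * η) x - clB _ P3 G3 (c3 * η) B3 x)‖ ≤
      1 / L ^ (A + 1) * (P3 / Real.sqrt ((c1.natAbs : ℝ) * c2.natAbs) *
        (Real.sqrt S1 * Real.sqrt S2)) := by
    refine root _ _ _ _ _ _ A (norm_nonneg _) (Nat.cast_nonneg _) (by positivity) hL0 hS10 hS20 ?_
    refine (h5 c1 c2 c3 k hp.g12 hp.g13 hp.g23 d' _ _ _).trans ?_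
    have k1 : (2 * A + 2) = W + 1 := by omega
    rw [k1]
    obtain ⟨z1, hz1⟩ : ∃ z1 : ℝ, z1 = ∑ x, ‖clB (k * c2.natAbs * c3.natAbs) P1 G1 (c1 * η) B1' x‖ ^ 2 :=
      ⟨_, rfl⟩
    obtain ⟨z2, hz2⟩ : ∃ z2 : ℝ, z2 = ∑ x, ‖clB (k * c1.natAbs * c3.natAbs) P2 G2 (c2 * η) B2 x‖ ^ 2 :=
      ⟨_, rfl⟩
    obtain ⟨z3, hz3⟩ : ∃ z3 : ℝ, z3 = ∑ x, ‖cl (k * c1.natAbs * c2.natAbs) P3 G3 (c3 * η) x -
          clB (k * c1.natAbs * c2.natAbs) P3 G3 (c3 * η) B3 x‖ ^ 2 := ⟨_, rfl⟩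
    have z10 : 0 ≤ z1 := by rw [hz1]; exact sum_nonneg fun _ _ => sq_nonneg _
    have z20 : 0 ≤ z2 := by rw [hz2]; exact sum_nonneg fun _ _ => sq_nonneg _
    have z30 : 0 ≤ z3 := by rw [hz3]; exact sum_nonneg fun _ _ => sq_nonneg _
    rw [← hz1] at hb1 ⊢
    rw [← hz2] at hb2 ⊢
    rw [← hz3] at hg3 ⊢
    calc (k : ℝ) * z1 * z2 * z3 ≤ (k : ℝ) * S1 * S2 * z3 := by gcongr
      _ = (k * z3) * (S1 * S2) := by ring
      _ ≤ _ := mul_le_mul_of_nonneg_right hg3 (by positivity)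
  have t4 : ‖T3 c1 c2 c3 k d' (clB _ P1 G1 (c1 * η) B1') (clB _ P2 G2 (c2 * η) B2)
        (clB _ P3 G3 (c3 * η) B3)‖ ≤
      1 / L ^ (A + 1) * (P1 / Real.sqrt ((c2.natAbs : ℝ) * c3.natAbs) *
        (Real.sqrt S2 * Real.sqrt S3)) := by
    refine root _ _ _ _ _ _ A (norm_nonneg _) (Nat.cast_nonneg _) (by positivity) hL0 hS20 hS30 ?_
    -- the size of the modulus
    obtain ⟨K, hK⟩ : ∃ K : ℕ, K = k * c1.natAbs * c2.natAbs * c3.natAbs := ⟨_, rfl⟩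
    have hK0 : 0 < K := by
      rw [hK]
      exact Nat.mul_pos (Nat.mul_pos (Nat.mul_pos hk1 ha1) ha2) ha3
    have hKr : (0 : ℝ) < K := by exact_mod_cast hK0
    have hφK : (0 : ℝ) < K.totient := by exact_mod_cast Nat.totient_pos.2 hK0
    have hKc : (K : ℝ) = k * c1.natAbs * c2.natAbs * c3.natAbs := by rw [hK]; push_cast; ring
    have hlogK : Real.log K ≤ 2 * L := by
      have k1 : K ≤ N * N := by
        have k2 : c2.natAbs * c3.natAbs ≤ P1 := by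
          refine le_trans (Nat.le_mul_of_pos_left _ hk1) ?_
          rw [← mul_assoc]
          exact u4
        have k3 : c1.natAbs * (c2.natAbs * c3.natAbs) ≤ N :=
          le_trans (Nat.mul_le_mul_left _ k2) hp.u1
        have k4 : k ≤ N := by exact_mod_cast hkN
        calc K = k * (c1.natAbs * (c2.natAbs * c3.natAbs)) := by rw [hK]; ring
          _ ≤ N * N := Nat.mul_le_mul k4 k3
      have k5 : (K : ℝ) ≤ (N : ℝ) ^ 2 := by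
        rw [sq]
        exact_mod_cast k1
      have k6 := Real.log_le_log hKr k5
      rw [Real.log_pow, ← hL] at k6
      push_cast at k6
      exact k6
    have hlogK0 : 0 ≤ Real.log K := Real.log_natCast_nonneg K
    have hgcd : (Nat.gcd d'.val K : ℝ) ≤ L ^ (C1 + T) := by
      have k1 := gcd_le k c1.natAbs c2.natAbs c3.natAbs d d'.val hd' hk1
        (Nat.mul_pos (Nat.mul_pos ha1 ha2) ha3)
      have k2 : (Nat.gcd d'.val K : ℝ) ≤ k * (Nat.gcd d.natAbs (c1.natAbs * c2.natAbs * c3.natAbs) : ℕ) := by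
        rw [hK]
        exact_mod_cast k1
      have k3 := hp.gd
      rw [← hL] at k3
      rw [pow_add]
      exact k2.trans (mul_le_mul hkL k3 (Nat.cast_nonneg _) (by positivity))
    have hJ : ∀ χ₁ ∈ B1', ∀ (χ₂ : DirichletCharacter ℂ (k * c1.natAbs * c3.natAbs))
        (χ₃ : DirichletCharacter ℂ (k * c1.natAbs * c2.natAbs)),
        ‖T3 c1 c2 c3 k d' (fun x => χ₁⁻¹ x) (fun x => χ₂⁻¹ x) (fun x => χ₃⁻¹ x)‖ ^ 2 ≤
          ((k : ℝ) * K * (3 * L)) ^ 2 * (5 * L) * (L ^ (C1 + T) / L ^ A2) := by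
      intro χ₁ hχ₁ χ₂ χ₃
      rw [hB1', mem_filter] at hχ₁
      have k1 := h6 c1 c2 c3 k hp.g12 hp.g13 hp.g23 K hK d' χ₁⁻¹ χ₂⁻¹ χ₃⁻¹
      rw [DirichletCharacter.conductor_inv] at k1
      have hcond : 0 < (χ₁.conductor : ℝ) := lt_trans (by positivity) hχ₁.2
      have k2 : (Nat.gcd d'.val K : ℝ) / χ₁.conductor ≤ L ^ (C1 + T) / L ^ A2 :=
        div_le_div₀ (by positivity) hgcd (by positivity) hχ₁.2.le
      have k3 : (K : ℝ) / K.totient ≤ 5 * L := by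
        rw [div_le_iff₀ hφK]
        refine (phi_low K hK0).trans (mul_le_mul_of_nonneg_right ?_ hφK.le)
        linarith
      calc ‖T3 c1 c2 c3 k d' (fun x => χ₁⁻¹ x) (fun x => χ₂⁻¹ x) (fun x => χ₃⁻¹ x)‖ ^ 2
          ≤ ((k : ℝ) * K * (1 + Real.log K) * Real.sqrt ((K : ℝ) / K.totient) *
              Real.sqrt ((Nat.gcd d'.val K : ℝ) / χ₁.conductor)) ^ 2 :=
            pow_le_pow_left₀ (norm_nonneg _) k1 2
        _ = ((k : ℝ) * K * (1 + Real.log K)) ^ 2 * ((K : ℝ) / K.totient) *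
              ((Nat.gcd d'.val K : ℝ) / χ₁.conductor) := by
            rw [mul_pow, mul_pow, Real.sq_sqrt (by positivity), Real.sq_sqrt (by positivity)]
        _ ≤ ((k : ℝ) * K * (3 * L)) ^ 2 * (5 * L) * (L ^ (C1 + T) / L ^ A2) := by
            have k4 : 1 + Real.log K ≤ 3 * L := by linarith
            have k5 : 0 ≤ 1 + Real.log K := by linarith
            gcongr
    have key := third3 (fun (x1 : ZMod (k * c2.natAbs * c3.natAbs))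
        (x2 : ZMod (k * c1.natAbs * c3.natAbs)) (x3 : ZMod (k * c1.natAbs * c2.natAbs)) =>
        ((c1 * (x1.val : ℤ) + c2 * (x2.val : ℤ) + c3 * (x3.val : ℤ) : ℤ) :
        ZMod (k * c1.natAbs * c2.natAbs * c3.natAbs)) = d') P1 P2 P3 G1 G2 G3 (c1 * η) (c2 * η)
        (c3 * η) B1' B2 B3 S1 S2 S3 _ hS10 hS20 hS30
        (fun χ => by rw [hS1d]; exact cs_le h1 _ _ _ _ χ)
        (fun χ => by rw [hS2d]; exact cs_le h1 _ _ _ _ χ)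
        (fun χ => by rw [hS3d]; exact cs_le h1 _ _ _ _ χ) hJ
    refine key.trans ?_
    have hf1 : (0 : ℝ) < (k * c2.natAbs * c3.natAbs).totient := by
      exact_mod_cast Nat.totient_pos.2 (Nat.pos_of_ne_zero (NeZero.ne _))
    have hf2 : (0 : ℝ) < (k * c1.natAbs * c3.natAbs).totient := by
      exact_mod_cast Nat.totient_pos.2 (Nat.pos_of_ne_zero (NeZero.ne _))
    have hf3 : (0 : ℝ) < (k * c1.natAbs * c2.natAbs).totient := by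
      exact_mod_cast Nat.totient_pos.2 (Nat.pos_of_ne_zero (NeZero.ne _))
    refine comb4 L k K ((k * c2.natAbs * c3.natAbs : ℕ) : ℝ) ((k * c1.natAbs * c3.natAbs : ℕ) : ℝ)
      ((k * c1.natAbs * c2.natAbs : ℕ) : ℝ) _ _ _ _ _ _ S1 S2 S3 _
      ((P1 : ℝ) ^ 2 / ((c2.natAbs : ℝ) * c3.natAbs)) C1 C3 T A hL200 hkr hKr
      (by rw [eq1]; positivity) (by rw [eq2]; positivity) (by rw [eq3]; positivity) ?_
      (qphi _ P1 L hL200 u4 u1) (qphi _ P2 L hL200 v4 v1) (qphi _ P3 L hL200 w4 w1)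
      hf1 hf2 hf3 (Nat.cast_nonneg _) (Nat.cast_nonneg _) (Nat.cast_nonneg _) hB1c hB2 hB3
      hS10 hS20 hS30 ?_ (by positivity) (by positivity) ?_
    · rw [eq1, eq2, eq3, hKc]
      ring
    · calc (k : ℝ) * S1 ≤ k * ((P1 : ℝ) ^ 2 * L ^ 7 / ((k * c2.natAbs * c3.natAbs : ℕ) : ℝ)) :=
            mul_le_mul_of_nonneg_left htr hkr.le
        _ = (P1 : ℝ) ^ 2 / ((c2.natAbs : ℝ) * c3.natAbs) * L ^ 7 := by
            rw [eq1]
            field_simp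
    · rw [hA2]
  rw [hsplit, ← hL]
  have hn : ∀ a b c e : ℂ, ‖a + b + c + e‖ ≤ ‖a‖ + ‖b‖ + ‖c‖ + ‖e‖ := by
    intro a b c e
    have k1 := norm_add_le (a + b + c) e
    have k2 := norm_add_le (a + b) c
    have k3 := norm_add_le a b
    linarith
  exact (hn _ _ _ _).trans (fin_sum L _ _ _ _ _ _ _ A hL200 (by positivity) (by positivity)
    (by positivity) t1 t2 t3 t4)

end Pool.Agent.Y258.GJ
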