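import Pool.Agent.Y883.GJ.Stm3
import Pool.Agent.Y378.GJ.Pw

set_option autoImplicit false

/-! Project GJ (helper883): tools for the pointwise estimate of the ternary sum (helper258). -/

namespace Pool.Agent.Y258.GJ

open Finset
open Pool.Agent.Y883.GJ
open Pool.Agent.Y378.GJ (phi_low sum_norm_sq sqrt_bound comb)

/-! ### trilinear sums -/

section tri

variable {α β γ : Type} [Fintype α] [Fintype β] [Fintype γ] (R : α → β → γ → Prop)
  [∀ x y z, Decidable (R x y z)]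

/-- the trilinear form of a relation -/
noncomputable def Tt (A : α → ℂ) (B : β → ℂ) (C : γ → ℂ) : ℂ :=
  ∑ x, ∑ y, ∑ z, if R x y z then A x * B y * C z else 0

theorem Tt_split (A A' : α → ℂ) (B B' : β → ℂ) (C C' : γ → ℂ) :
    Tt R A B C = Tt R (fun x => A x - A' x) B C + Tt R A' (fun y => B y - B' y) C +
      Tt R A' B' (fun z => C z - C' z) + Tt R A' B' C' := by
  unfold Tt
  simp only [← sum_add_distrib]
  refine sum_congr rfl fun x _ => sum_congr rfl fun y _ => sum_congr rfl fun z _ => ?_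
  split_ifs
  · ring
  · simp

/-- linear map in the first variable -/
noncomputable def l1 (B : β → ℂ) (C : γ → ℂ) : (α → ℂ) →ₗ[ℂ] ℂ where
  toFun A := Tt R A B C
  map_add' A A' := by
    unfold Tt
    simp only [← sum_add_distrib]
    refine sum_congr rfl fun x _ => sum_congr rfl fun y _ => sum_congr rfl fun z _ => ?_
    split_ifs
    · rw [Pi.add_apply]
      ring
    · simp
  map_smul' a A := by
    unfold Tt
    simp only [RingHom.id_apply, smul_eq_mul, mul_sum]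
    refine sum_congr rfl fun x _ => sum_congr rfl fun y _ => sum_congr rfl fun z _ => ?_
    split_ifs
    · rw [Pi.smul_apply, smul_eq_mul]
      ring
    · simp

/-- linear map in the second variable -/
noncomputable def l2 (A : α → ℂ) (C : γ → ℂ) : (β → ℂ) →ₗ[ℂ] ℂ where
  toFun B := Tt R A B C
  map_add' B B' := by
    unfold Tt
    simp only [← sum_add_distrib]
    refine sum_congr rfl fun x _ => sum_congr rfl fun y _ => sum_congr rfl fun z _ => ?_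
    split_ifs
    · rw [Pi.add_apply]
      ring
    · simp
  map_smul' a B := by
    unfold Tt
    simp only [RingHom.id_apply, smul_eq_mul, mul_sum]
    refine sum_congr rfl fun x _ => sum_congr rfl fun y _ => sum_congr rfl fun z _ => ?_
    split_ifs
    · rw [Pi.smul_apply, smul_eq_mul]
      ring
    · simp

/-- linear map in the third variable -/
noncomputable def l3 (A : α → ℂ) (B : β → ℂ) : (γ → ℂ) →ₗ[ℂ] ℂ where
  toFun C := Tt R A B C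
  map_add' C C' := by
    unfold Tt
    simp only [← sum_add_distrib]
    refine sum_congr rfl fun x _ => sum_congr rfl fun y _ => sum_congr rfl fun z _ => ?_
    split_ifs
    · rw [Pi.add_apply]
      ring
    · simp
  map_smul' a C := by
    unfold Tt
    simp only [RingHom.id_apply, smul_eq_mul, mul_sum]
    refine sum_congr rfl fun x _ => sum_congr rfl fun y _ => sum_congr rfl fun z _ => ?_
    split_ifs
    · rw [Pi.smul_apply, smul_eq_mul]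
      ring
    · simp

theorem Tt_expand {ι κ μ : Type} (s : Finset ι) (t : Finset κ) (r : Finset μ)
    (a b c : ℂ) (f : ι → α → ℂ) (g : κ → β → ℂ) (h : μ → γ → ℂ) (u : ι → ℂ) (v : κ → ℂ)
    (w : μ → ℂ) :
    Tt R (fun x => a * ∑ i ∈ s, f i x * u i) (fun y => b * ∑ i ∈ t, g i y * v i)
      (fun z => c * ∑ i ∈ r, h i z * w i) =
      a * b * c * ∑ p ∈ s ×ˢ (t ×ˢ r), u p.1 * v p.2.1 * w p.2.2 * Tt R (f p.1) (g p.2.1) (h p.2.2) := by
  have e1 : ∀ B C, Tt R (fun x => a * ∑ i ∈ s, f i x * u i) B C =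
      a * ∑ i ∈ s, u i * Tt R (f i) B C := by
    intro B C
    have : (fun x => a * ∑ i ∈ s, f i x * u i) = a • ∑ i ∈ s, u i • f i := by
      funext x
      simp only [Pi.smul_apply, Finset.sum_apply, smul_eq_mul]
      congr 1
      exact sum_congr rfl fun i _ => mul_comm _ _
    rw [this]
    have h1 : l1 R B C (a • ∑ i ∈ s, u i • f i) =
        a * ∑ i ∈ s, u i * l1 R B C (f i) := by
      simp only [map_smul, map_sum, smul_eq_mul]
    exact h1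
  have e2 : ∀ A C, Tt R A (fun y => b * ∑ i ∈ t, g i y * v i) C =
      b * ∑ i ∈ t, v i * Tt R A (g i) C := by
    intro A C
    have : (fun y => b * ∑ i ∈ t, g i y * v i) = b • ∑ i ∈ t, v i • g i := by
      funext x
      simp only [Pi.smul_apply, Finset.sum_apply, smul_eq_mul]
      congr 1
      exact sum_congr rfl fun i _ => mul_comm _ _
    rw [this]
    have h1 : l2 R A C (b • ∑ i ∈ t, v i • g i) =
        b * ∑ i ∈ t, v i * l2 R A C (g i) := by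
      simp only [map_smul, map_sum, smul_eq_mul]
    exact h1
  have e3 : ∀ A B, Tt R A B (fun z => c * ∑ i ∈ r, h i z * w i) =
      c * ∑ i ∈ r, w i * Tt R A B (h i) := by
    intro A B
    have : (fun z => c * ∑ i ∈ r, h i z * w i) = c • ∑ i ∈ r, w i • h i := by
      funext x
      simp only [Pi.smul_apply, Finset.sum_apply, smul_eq_mul]
      congr 1
      exact sum_congr rfl fun i _ => mul_comm _ _
    rw [this]
    have h1 : l3 R A B (c • ∑ i ∈ r, w i • h i) =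
        c * ∑ i ∈ r, w i * l3 R A B (h i) := by
      simp only [map_smul, map_sum, smul_eq_mul]
    exact h1
  simp only [e1, e2, e3]
  simp only [sum_product, mul_sum]
  refine sum_congr rfl fun i _ => sum_congr rfl fun j _ => sum_congr rfl fun l _ => ?_
  ring

end tri

/-- the sum over the bad characters -/
theorem third3 {q1 q2 q3 : ℕ} [NeZero q1] [NeZero q2] [NeZero q3]
    (R : ZMod q1 → ZMod q2 → ZMod q3 → Prop) [∀ x y z, Decidable (R x y z)]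
    (P1 P2 P3 : ℕ) (G1 G2 G3 : ℕ → ℂ) (β1 β2 β3 : ℝ)
    (B1 : Finset (DirichletCharacter ℂ q1)) (B2 : Finset (DirichletCharacter ℂ q2))
    (B3 : Finset (DirichletCharacter ℂ q3)) (S1 S2 S3 J : ℝ) (h10 : 0 ≤ S1) (h20 : 0 ≤ S2)
    (h30 : 0 ≤ S3) (h1 : ∀ χ, ‖cs q1 P1 G1 β1 χ‖ ^ 2 ≤ q1.totient * S1)
    (h2 : ∀ χ, ‖cs q2 P2 G2 β2 χ‖ ^ 2 ≤ q2.totient * S2)
    (h3 : ∀ χ, ‖cs q3 P3 G3 β3 χ‖ ^ 2 ≤ q3.totient * S3)
    (hJ : ∀ χ₁ ∈ B1, ∀ (χ₂ : DirichletCharacter ℂ q2) (χ₃ : DirichletCharacter ℂ q3), ‖Tt R (fun x => χ₁⁻¹ x) (fun x => χ₂⁻¹ x) (fun x => χ₃⁻¹ x)‖ ^ 2 ≤ J) :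
    ‖Tt R (clB q1 P1 G1 β1 B1) (clB q2 P2 G2 β2 B2) (clB q3 P3 G3 β3 B3)‖ ^ 2 ≤
      (q1.totient : ℝ)⁻¹ * (q2.totient : ℝ)⁻¹ * (q3.totient : ℝ)⁻¹ * ((B1.card : ℝ) ^ 2 *
        (B2.card : ℝ) ^ 2 * (B3.card : ℝ) ^ 2) * (S1 * S2 * S3) * J := by
  have f1 : (0 : ℝ) < q1.totient := by
    exact_mod_cast Nat.totient_pos.2 (Nat.pos_of_ne_zero (NeZero.ne q1))
  have f2 : (0 : ℝ) < q2.totient := by
    exact_mod_cast Nat.totient_pos.2 (Nat.pos_of_ne_zero (NeZero.ne q2))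
  have f3 : (0 : ℝ) < q3.totient := by
    exact_mod_cast Nat.totient_pos.2 (Nat.pos_of_ne_zero (NeZero.ne q3))
  have e1 : Tt R (clB q1 P1 G1 β1 B1) (clB q2 P2 G2 β2 B2) (clB q3 P3 G3 β3 B3) =
      (q1.totient : ℂ)⁻¹ * (q2.totient : ℂ)⁻¹ * (q3.totient : ℂ)⁻¹ *
        ∑ p ∈ B1 ×ˢ (B2 ×ˢ B3), cs q1 P1 G1 β1 p.1 * cs q2 P2 G2 β2 p.2.1 *
          cs q3 P3 G3 β3 p.2.2 * Tt R (fun x => p.1⁻¹ x) (fun x => p.2.1⁻¹ x)
            (fun x => p.2.2⁻¹ x) :=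
    Tt_expand R B1 B2 B3 _ _ _ (fun χ x => χ⁻¹ x) (fun χ x => χ⁻¹ x) (fun χ x => χ⁻¹ x)
      (fun χ => cs q1 P1 G1 β1 χ) (fun χ => cs q2 P2 G2 β2 χ) (fun χ => cs q3 P3 G3 β3 χ)
  rw [e1, norm_mul, mul_pow]
  have k1 : ‖∑ p ∈ B1 ×ˢ (B2 ×ˢ B3), cs q1 P1 G1 β1 p.1 * cs q2 P2 G2 β2 p.2.1 *
          cs q3 P3 G3 β3 p.2.2 * Tt R (fun x => p.1⁻¹ x) (fun x => p.2.1⁻¹ x)
            (fun x => p.2.2⁻¹ x)‖ ^ 2 ≤ ((B1 ×ˢ (B2 ×ˢ B3)).card : ℝ) ^ 2 *
        (q1.totient * S1 * (q2.totient * S2) * (q3.totient * S3) * J) := by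
    apply sum_norm_sq
    intro p hp
    rw [mem_product, mem_product] at hp
    rw [norm_mul, norm_mul, norm_mul, mul_pow, mul_pow, mul_pow]
    have k4 := mul_le_mul (h1 p.1) (h2 p.2.1) (sq_nonneg _) (by positivity)
    have k5 := mul_le_mul k4 (h3 p.2.2) (sq_nonneg _) (by positivity)
    exact mul_le_mul k5 (hJ p.1 hp.1 p.2.1 p.2.2) (sq_nonneg _) (by positivity)
  have k2 : ‖(q1.totient : ℂ)⁻¹ * (q2.totient : ℂ)⁻¹ * (q3.totient : ℂ)⁻¹‖ ^ 2 =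
      ((q1.totient : ℝ)⁻¹ * (q2.totient : ℝ)⁻¹ * (q3.totient : ℝ)⁻¹) ^ 2 := by
    rw [norm_mul, norm_mul, norm_inv, norm_inv, norm_inv, Complex.norm_natCast,
      Complex.norm_natCast, Complex.norm_natCast]
  rw [k2]
  refine (mul_le_mul_of_nonneg_left k1 (by positivity)).trans (le_of_eq ?_)
  rw [card_product, card_product]
  push_cast
  field_simp

/-! ### one scale -/

theorem qphi (q P : ℕ) [NeZero q] (L : ℝ) (hL : 200 ≤ L) (hqP : q ≤ P) (hlog : Real.log P ≤ L) :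
    (q : ℝ) ≤ 3 * L * q.totient := by
  have hq0 : 0 < q := Nat.pos_of_ne_zero (NeZero.ne q)
  have hqr : (0 : ℝ) < q := by exact_mod_cast hq0
  have hφ0 : (0 : ℝ) < q.totient := by exact_mod_cast Nat.totient_pos.2 hq0
  refine (phi_low q hq0).trans (mul_le_mul_of_nonneg_right ?_ hφ0.le)
  have k1 : Real.log q ≤ L := by
    refine le_trans ?_ hlog
    exact Real.log_le_log hqr (by exact_mod_cast hqP)
  linarith

theorem scale (h1 : OrthStm) (c : ℕ)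
    (hc : ∀ (q N : ℕ) [NeZero q] (F : ℕ → ℂ) (ℓ T β : ℝ), 1 ≤ N → 1 + Real.log N ≤ ℓ →
      (∀ n ∈ Icc 1 N, ‖F n‖ ≤ ℓ * (n.divisors.card : ℝ)) →
      (∑ n ∈ (Icc 1 N).filter (fun n => ¬ n.Coprime q), ‖F n‖ ≤ T) →
      ∑ l ∈ univ.filter (fun l : ZMod q => ¬ IsUnit l), ‖cl q N F β l‖ ^ 2 ≤
        ((N : ℝ) / q + 1) * Real.sqrt (T * (N * ℓ ^ c)))
    (L : ℝ) (q P : ℕ) [NeZero q] (G : ℕ → ℂ) (β : ℝ) (B : Finset (DirichletCharacter ℂ q))
    (V W : ℕ) (hL : 200 ≤ L) (h2c : (2 : ℝ) ^ c ≤ L) (hP : 1 ≤ P) (hqP : q ≤ P)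
    (hlog : Real.log P ≤ L) (hbd : ∀ n ∈ Icc 1 P, ‖G n‖ ≤ 2 * L * (n.divisors.card : ℝ))
    (hnc : ∑ n ∈ (Icc 1 P).filter (fun n => ¬ n.Coprime q), ‖G n‖ ≤ P / L ^ V)
    (hV : 1 + c + 2 * (W + 2) ≤ V)
    (hX : ∑ χ ∈ univ.filter (fun χ => χ ∉ B), ‖cs q P G β χ‖ ^ 2 ≤ 8 * (P : ℝ) ^ 2 / L ^ (W + 3)) :
    ∑ l, ‖cl q P G β l - clB q P G β B l‖ ^ 2 ≤ (P : ℝ) ^ 2 / (q * L ^ (W + 1)) := by
  have hq0 : 0 < q := Nat.pos_of_ne_zero (NeZero.ne q)
  have hqr : (0 : ℝ) < q := by exact_mod_cast hq0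
  have hφ0 : (0 : ℝ) < q.totient := by exact_mod_cast Nat.totient_pos.2 hq0
  have hL1 : 1 ≤ L := by linarith
  have hPp : (0 : ℝ) < P := by exact_mod_cast hP
  have hqPr : (q : ℝ) ≤ P := by exact_mod_cast hqP
  have hNq : (P : ℝ) / q + 1 ≤ 2 * P / q := by
    have k1 : (1 : ℝ) ≤ P / q := by rw [le_div_iff₀ hqr]; linarith
    have k2 : 2 * (P : ℝ) / q = P / q + P / q := by ring
    rw [k2]
    linarith
  rw [(h1 q P G β B).1]
  refine comb P q q.totient L _ _ W hqr hφ0 hL (qphi q P L hL hqP hlog) hX ?_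
  refine (hc q P G (2 * L) (P / L ^ V) β hP (by linarith) hbd hnc).trans ?_
  exact mul_le_mul hNq (sqrt_bound P L hPp.le hL1 c V (W + 2) h2c hV)
    (Real.sqrt_nonneg _) (by positivity)

theorem trivb (h2 : L2Stm) (L : ℝ) (q P : ℕ) [NeZero q] (G : ℕ → ℂ) (β : ℝ)
    (hL : 200 ≤ L) (hP : 1 ≤ P) (hqP : q ≤ P)
    (hlog : Real.log P ≤ L) (hbd : ∀ n ∈ Icc 1 P, ‖G n‖ ≤ 2 * L * (n.divisors.card : ℝ)) :
    ∑ l : ZMod q, ‖cl q P G β l‖ ^ 2 ≤ (P : ℝ) ^ 2 * L ^ 7 / q := by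
  have hq0 : 0 < q := Nat.pos_of_ne_zero (NeZero.ne q)
  have hqr : (0 : ℝ) < q := by exact_mod_cast hq0
  have hPp : (0 : ℝ) < P := by exact_mod_cast hP
  have hqPr : (q : ℝ) ≤ P := by exact_mod_cast hqP
  have hNq : (P : ℝ) / q + 1 ≤ 2 * P / q := by
    have k1 : (1 : ℝ) ≤ P / q := by rw [le_div_iff₀ hqr]; linarith
    have k2 : 2 * (P : ℝ) / q = P / q + P / q := by ring
    rw [k2]
    linarith
  have hlog0 : 0 ≤ Real.log P := Real.log_natCast_nonneg P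
  refine ((h2 q P G).2 β).trans ?_
  have k1 : ∑ n ∈ Icc 1 P, ‖G n‖ ^ 2 ≤ (2 * L) ^ 2 * (P * (2 * L) ^ 4) := by
    calc ∑ n ∈ Icc 1 P, ‖G n‖ ^ 2 ≤ ∑ n ∈ Icc 1 P, (2 * L) ^ 2 * (n.divisors.card : ℝ) ^ 2 := by
          refine sum_le_sum fun n hn => ?_
          rw [← mul_pow]
          exact pow_le_pow_left₀ (norm_nonneg _) (hbd n hn) 2
      _ = (2 * L) ^ 2 * ∑ n ∈ Icc 1 P, (n.divisors.card : ℝ) ^ 2 := by rw [mul_sum]
      _ ≤ (2 * L) ^ 2 * (P * (1 + Real.log P) ^ (2 ^ 2)) :=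
          mul_le_mul_of_nonneg_left (Pool.Agent.TH935.LD.tau_pow_sum 2 P) (by positivity)
      _ ≤ (2 * L) ^ 2 * (P * (2 * L) ^ 4) := by
          have k2 : (1 + Real.log P) ^ (2 ^ 2) ≤ (2 * L) ^ 4 := by
            norm_num only
            exact pow_le_pow_left₀ (by linarith) (by linarith) 4
          gcongr
  calc ((P : ℝ) / q + 1) * ∑ n ∈ Icc 1 P, ‖G n‖ ^ 2
      ≤ 2 * P / q * ((2 * L) ^ 2 * (P * (2 * L) ^ 4)) :=
        mul_le_mul hNq k1 (sum_nonneg fun _ _ => sq_nonneg _) (by positivity)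
    _ = 128 * (P ^ 2 * L ^ 6 / q) := by ring
    _ ≤ L * (P ^ 2 * L ^ 6 / q) := mul_le_mul_of_nonneg_right (by linarith) (by positivity)
    _ = P ^ 2 * L ^ 7 / q := by ring

/-- a bound for each character -/
theorem cs_le (h1 : OrthStm) (q P : ℕ) [NeZero q] (G : ℕ → ℂ) (β : ℝ)
    (χ : DirichletCharacter ℂ q) :
    ‖cs q P G β χ‖ ^ 2 ≤ q.totient * ∑ l, ‖cl q P G β l‖ ^ 2 := by
  have k1 : ‖cs q P G β χ‖ ^ 2 ≤ ∑ χ : DirichletCharacter ℂ q, ‖cs q P G β χ‖ ^ 2 :=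
    single_le_sum (f := fun χ : DirichletCharacter ℂ q => ‖cs q P G β χ‖ ^ 2)
      (fun _ _ => sq_nonneg _) (mem_univ χ)
  refine k1.trans ?_
  rw [(h1 q P G β ∅).2.2]
  apply mul_le_mul_of_nonneg_left _ (Nat.cast_nonneg _)
  exact sum_le_sum_of_subset_of_nonneg (filter_subset _ _) fun _ _ _ => sq_nonneg _

/-- the good characters together with the bad ones of small conductor -/
theorem small_cond (h3 : SmallCStm) (L : ℝ) (q P : ℕ) [NeZero q] (G : ℕ → ℂ) (β : ℝ)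
    (B : Finset (DirichletCharacter ℂ q)) (C3 A2 U W V : ℕ) (hL : 200 ≤ L)
    (hBc : (B.card : ℝ) ≤ L ^ C3)
    (hS : ∀ S : Finset (DirichletCharacter ℂ q), Disjoint S B →
      ∑ χ ∈ S, ‖cs q P G β χ‖ ^ 2 ≤ (P : ℝ) ^ 2 / L ^ V) (hV : W + 3 ≤ V)
    (hnc : ∑ n ∈ (Icc 1 P).filter (fun n => ¬ n.Coprime q), ‖G n‖ ≤ P / L ^ U)
    (hsum : ∀ α : ℝ, ‖∑ n ∈ Icc 1 P, G n * Pool.Agent.H807R2.Dav.ee (n * α)‖ ≤ P / L ^ U)
    (hU : C3 + 2 * A2 + (W + 3) ≤ 2 * U)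
    (B' : Finset (DirichletCharacter ℂ q))
    (hB' : ∀ χ, χ ∈ B' ↔ χ ∈ B ∧ L ^ A2 < (χ.conductor : ℝ)) :
    ∑ χ ∈ univ.filter (fun χ => χ ∉ B'), ‖cs q P G β χ‖ ^ 2 ≤ 8 * (P : ℝ) ^ 2 / L ^ (W + 3) := by
  classical
  have hL1 : 1 ≤ L := by linarith
  have hL0 : 0 < L := by linarith
  have hsmall : ∀ χ : DirichletCharacter ℂ q, (χ.conductor : ℝ) ≤ L ^ A2 →
      ‖cs q P G β χ‖ ≤ 2 * L ^ A2 * (P / L ^ U) := by
    intro χ hχ
    refine (h3 q P G (P / L ^ U) (P / L ^ U) hsum hnc χ β).trans ?_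
    have hLA : 1 ≤ L ^ A2 := one_le_pow₀ hL1
    have k2 : Real.sqrt χ.conductor ≤ L ^ A2 := by
      apply Real.sqrt_le_iff.2
      refine ⟨by positivity, hχ.trans ?_⟩
      nlinarith
    have k3 : 0 ≤ P / L ^ U := by positivity
    nlinarith
  have hsub : univ.filter (fun χ => χ ∉ B') ⊆
      (univ.filter (fun χ => χ ∉ B)) ∪ (B.filter (fun χ => ¬ L ^ A2 < (χ.conductor : ℝ))) := by
    intro χ hχ
    rw [mem_filter] at hχ
    rw [mem_union, mem_filter, mem_filter]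
    by_cases hb : χ ∈ B
    · right
      exact ⟨hb, fun h => hχ.2 ((hB' χ).2 ⟨hb, h⟩)⟩
    · left
      exact ⟨mem_univ _, hb⟩
  have hdis : Disjoint (univ.filter (fun χ => χ ∉ B))
      (B.filter (fun χ => ¬ L ^ A2 < (χ.conductor : ℝ))) := by
    rw [disjoint_left]
    intro χ k1 k2
    exact (mem_filter.1 k1).2 (mem_filter.1 k2).1
  have hstep : ∑ χ ∈ univ.filter (fun χ => χ ∉ B'), ‖cs q P G β χ‖ ^ 2 ≤
      ∑ χ ∈ (univ.filter (fun χ => χ ∉ B)) ∪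
        (B.filter (fun χ => ¬ L ^ A2 < (χ.conductor : ℝ))), ‖cs q P G β χ‖ ^ 2 :=
    sum_le_sum_of_subset_of_nonneg hsub fun _ _ _ => sq_nonneg _
  have hE : 0 ≤ (P : ℝ) ^ 2 / L ^ (W + 3) := by positivity
  have k1 : ∑ χ ∈ univ.filter (fun χ => χ ∉ B), ‖cs q P G β χ‖ ^ 2 ≤
      (P : ℝ) ^ 2 / L ^ (W + 3) := by
    refine (hS _ ?_).trans ?_
    · rw [disjoint_left]
      intro χ k1 k2
      exact (mem_filter.1 k1).2 k2
    · exact div_le_div_of_nonneg_left (by positivity) (by positivity)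
        (pow_le_pow_right₀ hL1 hV)
  have k2 : ∑ χ ∈ B.filter (fun χ => ¬ L ^ A2 < (χ.conductor : ℝ)),
      ‖cs q P G β χ‖ ^ 2 ≤ 4 * ((P : ℝ) ^ 2 / L ^ (W + 3)) := by
    calc ∑ χ ∈ B.filter (fun χ => ¬ L ^ A2 < (χ.conductor : ℝ)), ‖cs q P G β χ‖ ^ 2
        ≤ ∑ χ ∈ B.filter (fun χ => ¬ L ^ A2 < (χ.conductor : ℝ)),
          (2 * L ^ A2 * (P / L ^ U)) ^ 2 := by
          refine sum_le_sum fun χ hχ => ?_
          exact pow_le_pow_left₀ (norm_nonneg _)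
            (hsmall χ (not_lt.1 (mem_filter.1 hχ).2)) 2
      _ = ((B.filter (fun χ => ¬ L ^ A2 < (χ.conductor : ℝ))).card : ℝ) *
          (2 * L ^ A2 * (P / L ^ U)) ^ 2 := by rw [sum_const, nsmul_eq_mul]
      _ ≤ L ^ C3 * (2 * L ^ A2 * (P / L ^ U)) ^ 2 := by
          apply mul_le_mul_of_nonneg_right _ (sq_nonneg _)
          refine le_trans ?_ hBc
          exact_mod_cast card_filter_le _ _
      _ = 4 * (P ^ 2 * (L ^ C3 * L ^ (2 * A2) / (L ^ U * L ^ U))) := by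
          rw [mul_pow, mul_pow, div_pow, ← pow_mul, mul_comm A2 2]
          ring
      _ ≤ 4 * (P ^ 2 * (1 / L ^ (W + 3))) := by
          have e1 : L ^ C3 * L ^ (2 * A2) / (L ^ U * L ^ U) ≤ 1 / L ^ (W + 3) := by
            rw [div_le_div_iff₀ (by positivity) (by positivity), one_mul, ← pow_add, ← pow_add,
              ← pow_add]
            exact pow_le_pow_right₀ hL1 (by omega)
          gcongr
      _ = 4 * (P ^ 2 / L ^ (W + 3)) := by ring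
  have k3 : 8 * (P : ℝ) ^ 2 / L ^ (W + 3) = 8 * (P ^ 2 / L ^ (W + 3)) := by ring
  rw [k3]
  refine hstep.trans ?_
  rw [sum_union hdis]
  linarith

end Pool.Agent.Y258.GJ
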