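import Pool.Agent.Y258.GJ.Tpw1

set_option autoImplicit false

/-! Project GJ (helper883): the pointwise estimate of the ternary sum (helper258). -/

namespace Pool.Agent.Y258.GJ

open Finset
open Pool.Agent.Y883.GJ
open Pool.Agent.H807R2.Dav (ee)
open Pool.Agent.Y378.GJ (phi_low)

/-- conversion of powers of logarithms -/
theorem logconv (L l x : ℝ) (V : ℕ) (hL : 1 ≤ L) (hl : L / 3 ≤ l) (h3 : (3 : ℝ) ^ (V + 1) ≤ L)
    (hx : 0 ≤ x) : x / l ^ (V + 1) ≤ x / L ^ V := by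
  have hL0 : 0 < L := by linarith
  have hl0 : 0 < l := by linarith
  have h1 : L ^ V ≤ l ^ (V + 1) := by
    have k1 : (L / 3) ^ (V + 1) ≤ l ^ (V + 1) := pow_le_pow_left₀ (by positivity) hl _
    have k2 : (L / 3) ^ (V + 1) = L ^ V * (L / 3 ^ (V + 1)) := by
      rw [div_pow, pow_succ L V]
      ring
    have k3 : 1 ≤ L / 3 ^ (V + 1) := by
      rw [le_div_iff₀ (by positivity)]
      linarith
    have k4 : 0 < L ^ V := by positivity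
    rw [k2] at k1
    nlinarith
  exact div_le_div_of_nonneg_left hx (by positivity) h1

theorem sizes (N a P P' : ℕ) (ρ : ℝ) (hρ : 0 < ρ) (hN : 0 < N) (ha : 1 ≤ a)
    (hv : N < 2 * (a * P)) (hP' : 1 ≤ P') (hPN : P' ≤ N)
    (hq : (a : ℝ) ≤ (P' : ℝ) ^ (1 / 2 - ρ)) : (N : ℝ) ≤ 4 * (P : ℝ) ^ 2 := by
  have hP'r : (1 : ℝ) ≤ P' := by exact_mod_cast hP'
  have har : (0 : ℝ) < a := by exact_mod_cast ha
  have k1 : (a : ℝ) ≤ Real.sqrt P' := by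
    rw [Real.sqrt_eq_rpow]
    exact hq.trans (Real.rpow_le_rpow_of_exponent_le hP'r (by linarith))
  have k2 : (a : ℝ) ^ 2 ≤ P' := (Real.le_sqrt' har).1 k1
  have k3 : (a : ℝ) ^ 2 ≤ N := k2.trans (by exact_mod_cast hPN)
  have k4 : (N : ℝ) < 2 * (a * P) := by exact_mod_cast hv
  have hNr : (0 : ℝ) < N := by exact_mod_cast hN
  have k5 : (N : ℝ) * N ≤ N * (4 * (P : ℝ) ^ 2) := by
    calc (N : ℝ) * N ≤ (2 * (a * P)) * (2 * (a * P)) :=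
          mul_le_mul k4.le k4.le hNr.le (by positivity)
      _ = (a : ℝ) ^ 2 * (4 * (P : ℝ) ^ 2) := by ring
      _ ≤ N * (4 * (P : ℝ) ^ 2) := mul_le_mul_of_nonneg_right k3 (by positivity)
  exact le_of_mul_le_mul_left k5 hNr

/-- data of one scale -/
theorem sdat (N P k m C1 : ℕ) (ρ L : ℝ) (hL : L = Real.log N) (hL200 : 200 ≤ L)
    (hN : 0 < N) (hP : 1 ≤ P) (hPN : P ≤ N) (hs : (N : ℝ) ≤ 4 * (P : ℝ) ^ 2) (hρ : 0 < ρ)
    (has : L ^ C1 ≤ ((N : ℝ) / 4) ^ (ρ / 4)) (hk : (k : ℝ) ≤ L ^ C1)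
    (hm : (m : ℝ) ≤ (P : ℝ) ^ (1 / 2 - ρ)) :
    Real.log P ≤ L ∧ L / 3 ≤ Real.log P ∧ ((k * m : ℕ) : ℝ) ≤ (P : ℝ) ^ (1 / 2 - ρ / 2) ∧
      k * m ≤ P := by
  have hPr : (1 : ℝ) ≤ P := by exact_mod_cast hP
  have hP0 : (0 : ℝ) < P := by linarith
  have hNr : (0 : ℝ) < N := by exact_mod_cast hN
  have h3 : ((k * m : ℕ) : ℝ) ≤ (P : ℝ) ^ (1 / 2 - ρ / 2) := by
    have k1 : (k : ℝ) ≤ (P : ℝ) ^ (ρ / 2) := by
      refine hk.trans (has.trans ?_)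
      calc ((N : ℝ) / 4) ^ (ρ / 4) ≤ ((P : ℝ) ^ 2) ^ (ρ / 4) :=
            Real.rpow_le_rpow (by positivity) (by linarith) (by linarith)
        _ = (P : ℝ) ^ (ρ / 2) := by
            rw [← Real.rpow_natCast, ← Real.rpow_mul hP0.le]
            congr 1
            push_cast
            ring
    push_cast
    calc (k : ℝ) * m ≤ (P : ℝ) ^ (ρ / 2) * (P : ℝ) ^ (1 / 2 - ρ) :=
          mul_le_mul k1 hm (Nat.cast_nonneg _) (by positivity)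
      _ = (P : ℝ) ^ (1 / 2 - ρ / 2) := by
          rw [← Real.rpow_add hP0]
          congr 1
          ring
  refine ⟨?_, ?_, h3, ?_⟩
  · rw [hL]
    exact Real.log_le_log hP0 (by exact_mod_cast hPN)
  · have k1 := Real.log_le_log hNr hs
    rw [Real.log_mul (by norm_num) (by positivity), Real.log_pow] at k1
    have k2 : Real.log 4 ≤ 3 := by
      have := Real.log_le_sub_one_of_pos (by norm_num : (0 : ℝ) < 4)
      linarith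
    push_cast at k1
    rw [← hL] at k1
    linarith
  · have k1 : (P : ℝ) ^ (1 / 2 - ρ / 2) ≤ P := by
      calc (P : ℝ) ^ (1 / 2 - ρ / 2) ≤ (P : ℝ) ^ (1 : ℝ) :=
            Real.rpow_le_rpow_of_exponent_le hPr (by linarith)
        _ = P := Real.rpow_one _
    exact_mod_cast h3.trans k1

theorem kg (P q k m x L : ℝ) (W : ℕ) (hq : q = k * m) (hk : 0 < k) (hm : 0 < m) (hL : 0 < L)
    (hx : x ≤ P ^ 2 / (q * L ^ (W + 1))) : k * x ≤ P ^ 2 / m / L ^ (W + 1) := by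
  calc k * x ≤ k * (P ^ 2 / (q * L ^ (W + 1))) := mul_le_mul_of_nonneg_left hx hk.le
    _ = P ^ 2 / m / L ^ (W + 1) := by
        rw [hq]
        field_simp

theorem gcd_le (k a1 a2 a3 : ℕ) (d : ℤ) (x : ℕ)
    (h : (x : ZMod (1 * a1 * a2 * a3)) = (d : ZMod (1 * a1 * a2 * a3))) (hk : 1 ≤ k)
    (hm : 0 < a1 * a2 * a3) :
    Nat.gcd x (k * a1 * a2 * a3) ≤ k * Nat.gcd d.natAbs (a1 * a2 * a3) := by
  have e1 : k * a1 * a2 * a3 = k * (a1 * a2 * a3) := by ring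
  have e2 : 1 * a1 * a2 * a3 = a1 * a2 * a3 := by ring
  rw [e2] at h
  rw [e1]
  have g1 : Nat.gcd x (a1 * a2 * a3) ∣ Nat.gcd d.natAbs (a1 * a2 * a3) := by
    apply Nat.dvd_gcd _ (Nat.gcd_dvd_right _ _)
    have h2 : ((x : ℤ) : ZMod (a1 * a2 * a3)) = ((d : ℤ) : ZMod (a1 * a2 * a3)) := by
      rw [Int.cast_natCast]
      exact h
    rw [ZMod.intCast_eq_intCast_iff_dvd_sub] at h2
    have h3 : ((Nat.gcd x (a1 * a2 * a3) : ℕ) : ℤ) ∣ d - x :=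
      (Int.natCast_dvd_natCast.2 (Nat.gcd_dvd_right x (a1 * a2 * a3))).trans h2
    have h4 : ((Nat.gcd x (a1 * a2 * a3) : ℕ) : ℤ) ∣ (x : ℤ) :=
      Int.natCast_dvd_natCast.2 (Nat.gcd_dvd_left x (a1 * a2 * a3))
    have h5 : ((Nat.gcd x (a1 * a2 * a3) : ℕ) : ℤ) ∣ d := by
      have := dvd_add h3 h4
      rwa [sub_add_cancel] at this
    exact Int.natCast_dvd.1 h5
  have g2 : Nat.gcd x (k * (a1 * a2 * a3)) ∣ Nat.gcd x k * Nat.gcd x (a1 * a2 * a3) :=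
    Nat.gcd_mul_right_dvd_mul_gcd x k (a1 * a2 * a3)
  have g3 : 0 < Nat.gcd d.natAbs (a1 * a2 * a3) := Nat.gcd_pos_of_pos_right _ hm
  have g4 : 0 < Nat.gcd x k := Nat.gcd_pos_of_pos_right _ hk
  have g5 : 0 < Nat.gcd x (a1 * a2 * a3) := Nat.gcd_pos_of_pos_right _ hm
  calc Nat.gcd x (k * (a1 * a2 * a3)) ≤ Nat.gcd x k * Nat.gcd x (a1 * a2 * a3) :=
        Nat.le_of_dvd (Nat.mul_pos g4 g5) g2
    _ ≤ k * Nat.gcd d.natAbs (a1 * a2 * a3) :=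
        Nat.mul_le_mul (Nat.le_of_dvd hk (Nat.gcd_dvd_right _ _)) (Nat.le_of_dvd g3 g1)

theorem comb4 (L k K q1 q2 q3 f1 f2 f3 b1 b2 b3 S1 S2 S3 J e1 : ℝ) (C1 C3 T A : ℕ)
    (hL : 200 ≤ L) (hk : 0 < k) (hK : 0 < K) (hq1 : 0 < q1) (hq2 : 0 < q2) (hq3 : 0 < q3)
    (hqq : q1 * q2 * q3 = k * K ^ 2) (hf1 : q1 ≤ 3 * L * f1) (hf2 : q2 ≤ 3 * L * f2)
    (hf3 : q3 ≤ 3 * L * f3) (hp1 : 0 < f1) (hp2 : 0 < f2) (hp3 : 0 < f3)
    (hb1 : 0 ≤ b1) (hb2 : 0 ≤ b2) (hb3 : 0 ≤ b3) (hB1 : b1 ≤ L ^ C3) (hB2 : b2 ≤ L ^ C3)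
    (hB3 : b3 ≤ L ^ C3) (h1 : 0 ≤ S1) (h2 : 0 ≤ S2) (h3 : 0 ≤ S3) (hS1 : k * S1 ≤ e1 * L ^ 7)
    (he1 : 0 ≤ e1)
    (hJ0 : 0 ≤ J)
    (hJ : J ≤ (k * K * (3 * L)) ^ 2 * (5 * L) * (L ^ (C1 + T) / L ^ (6 * C3 + C1 + T + 2 * A + 17))) :
    f1⁻¹ * f2⁻¹ * f3⁻¹ * (b1 ^ 2 * b2 ^ 2 * b3 ^ 2) * (S1 * S2 * S3) * J ≤
      e1 / L ^ (2 * A + 2) * (S2 * S3) := by
  have hL0 : 0 < L := by linarith
  have g1 : f1⁻¹ ≤ 3 * L / q1 := by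
    rw [inv_eq_one_div, div_le_div_iff₀ hp1 hq1]
    linarith
  have g2 : f2⁻¹ ≤ 3 * L / q2 := by
    rw [inv_eq_one_div, div_le_div_iff₀ hp2 hq2]
    linarith
  have g3 : f3⁻¹ ≤ 3 * L / q3 := by
    rw [inv_eq_one_div, div_le_div_iff₀ hp3 hq3]
    linarith
  have e : (3 * L / q1) * (3 * L / q2) * (3 * L / q3) = 27 * L ^ 3 / (k * K ^ 2) := by
    rw [← hqq]
    field_simp
    ring
  have g4 : f1⁻¹ * f2⁻¹ * f3⁻¹ ≤ 27 * L ^ 3 / (k * K ^ 2) := by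
    rw [← e]
    gcongr
  calc f1⁻¹ * f2⁻¹ * f3⁻¹ * (b1 ^ 2 * b2 ^ 2 * b3 ^ 2) * (S1 * S2 * S3) * J
      ≤ 27 * L ^ 3 / (k * K ^ 2) * ((L ^ C3) ^ 2 * (L ^ C3) ^ 2 * (L ^ C3) ^ 2) *
        (S1 * S2 * S3) * ((k * K * (3 * L)) ^ 2 * (5 * L) *
          (L ^ (C1 + T) / L ^ (6 * C3 + C1 + T + 2 * A + 17))) := by gcongr
    _ = 1215 * L ^ 6 * (L ^ C3) ^ 6 * (L ^ (C1 + T) / L ^ (6 * C3 + C1 + T + 2 * A + 17)) *
        (k * S1) * (S2 * S3) := by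
        field_simp
        ring
    _ ≤ 1215 * L ^ 6 * (L ^ C3) ^ 6 * (L ^ (C1 + T) / L ^ (6 * C3 + C1 + T + 2 * A + 17)) *
        (e1 * L ^ 7) * (S2 * S3) := by gcongr
    _ = 1215 / L ^ 2 * (e1 / L ^ (2 * A + 2) * (S2 * S3)) := by
        have e' : L ^ (6 * C3 + C1 + T + 2 * A + 17) =
            (L ^ C3) ^ 6 * L ^ (C1 + T) * L ^ (2 * A + 2) * L ^ 15 := by ring
        rw [e']
        field_simp
    _ ≤ 1 * (e1 / L ^ (2 * A + 2) * (S2 * S3)) := by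
        apply mul_le_mul_of_nonneg_right _ (by positivity)
        rw [div_le_one (by positivity)]
        nlinarith
    _ = _ := one_mul _

theorem root (x P m S S' L : ℝ) (A : ℕ) (hx : 0 ≤ x) (hP : 0 ≤ P) (hm : 0 < m) (hL : 0 < L)
    (hS : 0 ≤ S) (hS' : 0 ≤ S') (h : x ^ 2 ≤ P ^ 2 / m / L ^ (2 * A + 2) * (S * S')) :
    x ≤ 1 / L ^ (A + 1) * (P / Real.sqrt m * (Real.sqrt S * Real.sqrt S')) := by
  have h1 : 0 ≤ 1 / L ^ (A + 1) * (P / Real.sqrt m * (Real.sqrt S * Real.sqrt S')) := by positivity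
  have h2 : (1 / L ^ (A + 1) * (P / Real.sqrt m * (Real.sqrt S * Real.sqrt S'))) ^ 2 =
      P ^ 2 / m / L ^ (2 * A + 2) * (S * S') := by
    rw [mul_pow, mul_pow, mul_pow, div_pow, div_pow, Real.sq_sqrt hS, Real.sq_sqrt hS',
      Real.sq_sqrt hm.le, ← pow_mul, show (A + 1) * 2 = 2 * A + 2 by ring]
    field_simp
  rw [← h2] at h
  exact (pow_le_pow_iff_left₀ hx h1 two_ne_zero).1 h

theorem asy (C : ℕ) (e c : ℝ) (he : 0 < e) (hc : 0 < c) :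
    ∃ N0 : ℕ, ∀ N : ℕ, N0 ≤ N → Real.log N ^ C ≤ c * (N : ℝ) ^ e := by
  have h1 := (isLittleO_log_rpow_rpow_atTop (r := (C : ℝ)) (s := e) he).def hc
  rw [Filter.eventually_atTop] at h1
  obtain ⟨x0, h0⟩ := h1
  refine ⟨⌈x0⌉₊ + 1, fun N hN => ?_⟩
  have h2 : x0 ≤ N := (Nat.le_ceil x0).trans (by exact_mod_cast (by omega : ⌈x0⌉₊ ≤ N))
  have h3 := h0 N h2
  have hlog : 0 ≤ Real.log N := Real.log_natCast_nonneg N
  rw [Real.rpow_natCast, Real.norm_of_nonneg (by positivity),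
    Real.norm_of_nonneg (by positivity)] at h3
  exact h3

theorem fin_sum (L x1 x2 x3 x4 Y1 Y2 Y3 : ℝ) (A : ℕ) (hL : 200 ≤ L) (hY1 : 0 ≤ Y1) (hY2 : 0 ≤ Y2)
    (hY3 : 0 ≤ Y3) (h1 : x1 ≤ 1 / L ^ (A + 1) * Y1) (h2 : x2 ≤ 1 / L ^ (A + 1) * Y2)
    (h3 : x3 ≤ 1 / L ^ (A + 1) * Y3) (h4 : x4 ≤ 1 / L ^ (A + 1) * Y1) :
    x1 + x2 + x3 + x4 ≤ 1 / L ^ A * (Y1 + Y2 + Y3) := by
  have hL0 : 0 < L := by linarith
  have e : 1 / L ^ A = L * (1 / L ^ (A + 1)) := by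
    rw [pow_succ]
    field_simp
  have k : 0 < 1 / L ^ (A + 1) := by positivity
  rw [e]
  set r := 1 / L ^ (A + 1)
  have k1 : 0 ≤ r * Y1 := by positivity
  have k2 : 0 ≤ r * Y2 := by positivity
  have k3 : 0 ≤ r * Y3 := by positivity
  nlinarith

end Pool.Agent.Y258.GJ
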